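import Pool.Agent.L7h59.NC.Def

set_option autoImplicit false

/-! Project NC: products of coefficient rings, group rings. -/

namespace Pool.Agent.L7h29.NC

noncomputable section

variable {R ι : Type} [Ring R] [Fintype ι] [DecidableEq ι] {R' : ι → Type} [∀ i, Ring (R' i)]
  (π : ∀ i, R →+* R' i)

theorem grp_bij (hπ : Function.Bijective (fun (r : R) (i : ι) => π i r)) (H : Type) [Group H] :
    Function.Bijective
      (fun (x : MonoidAlgebra R H) (i : ι) => MonoidAlgebra.mapRingHom H (π i) x) := by
  classical
  constructor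
  · intro x y hxy
    ext h
    apply hπ.1
    funext i
    have h1 := congrArg (fun z => z.coeff h) (congrFun hxy i)
    simpa using h1
  · intro a
    obtain ⟨g, hg⟩ := hπ.2.hasRightInverse
    have hg' : ∀ b i, π i (g b) = b i := fun b i => congrFun (hg b) i
    have hg0 : g (fun _ => 0) = 0 := hπ.1 (by funext i; show π i _ = π i 0; rw [hg', map_zero])
    refine ⟨MonoidAlgebra.ofCoeff (Finsupp.onFinset
      (Finset.univ.biUnion fun i => (a i).coeff.support) (fun h => g fun i => (a i).coeff h) ?_), ?_⟩
    · intro h hh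
      rw [Finset.mem_biUnion]
      by_contra hc
      push Not at hc
      apply hh
      have : (fun i => (a i).coeff h) = fun _ => 0 := by
        funext i
        have := hc i (Finset.mem_univ _)
        simpa using this
      rw [this, hg0]
    · funext i
      ext h
      simp [hg']

/-- The isomorphism of the group ring with the product. -/
def E (hπ : Function.Bijective (fun (r : R) (i : ι) => π i r)) (H : Type) [Group H] :
    MonoidAlgebra R H ≃+* ∀ i, MonoidAlgebra (R' i) H :=
  RingEquiv.ofBijective (Pi.ringHom fun i => MonoidAlgebra.mapRingHom H (π i)) (grp_bij π hπ H)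

variable (hπ : Function.Bijective (fun (r : R) (i : ι) => π i r))

theorem E_apply (H : Type) [Group H] (x : MonoidAlgebra R H) (i : ι) :
    E π hπ H x i = MonoidAlgebra.mapRingHom H (π i) x := rfl

/-- The (non-unital) inclusion of the factor `i`. -/
def sec (i : ι) (H : Type) [Group H] : MonoidAlgebra (R' i) H →ₙ+* MonoidAlgebra R H where
  toFun a := (E π hπ H).symm (Pi.single i a)
  map_mul' a b := by rw [Pi.single_mul, map_mul]
  map_zero' := by rw [Pi.single_zero, map_zero]
  map_add' a b := by rw [Pi.single_add, map_add]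

theorem E_sec (i : ι) (H : Type) [Group H] (a : MonoidAlgebra (R' i) H) :
    E π hπ H (sec π hπ i H a) = Pi.single i a := (E π hπ H).apply_symm_apply _

theorem sec_nat (i : ι) (H L : Type) [Group H] [Group L] (φ : H →* L)
    (a : MonoidAlgebra (R' i) H) :
    MonoidAlgebra.mapDomainRingHom R φ (sec π hπ i H a) =
      sec π hπ i L (MonoidAlgebra.mapDomainRingHom (R' i) φ a) := by
  apply (E π hπ L).injective
  rw [E_sec]
  funext j
  rw [E_apply]
  have h1 := DFunLike.congr_fun (MonoidAlgebra.mapRingHom_comp_mapDomainRingHom (π j) φ)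
    (sec π hπ i H a)
  have h2 : MonoidAlgebra.mapRingHom L (π j) (MonoidAlgebra.mapDomainRingHom R φ (sec π hπ i H a)) =
      MonoidAlgebra.mapDomainRingHom (R' j) φ
        (MonoidAlgebra.mapRingHom H (π j) (sec π hπ i H a)) := h1
  rw [h2, ← E_apply π hπ H, E_sec]
  by_cases hj : j = i
  · subst hj
    rw [Pi.single_eq_same, Pi.single_eq_same]
  · rw [Pi.single_eq_of_ne hj, Pi.single_eq_of_ne hj, map_zero]

theorem sec_orth (i j : ι) (hij : i ≠ j) (H : Type) [Group H] (a : MonoidAlgebra (R' i) H)
    (b : MonoidAlgebra (R' j) H) : sec π hπ i H a * sec π hπ j H b = 0 := by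
  apply (E π hπ H).injective
  rw [map_mul, E_sec, E_sec, map_zero]
  funext l
  rw [Pi.mul_apply, Pi.zero_apply]
  by_cases hl : l = i
  · subst hl
    rw [Pi.single_eq_of_ne hij, mul_zero]
  · rw [Pi.single_eq_of_ne hl, zero_mul]

theorem sec_sum (H : Type) [Group H] (x : MonoidAlgebra R H) :
    ∑ i, sec π hπ i H (MonoidAlgebra.mapRingHom H (π i) x) = x := by
  apply (E π hπ H).injective
  rw [map_sum]
  simp_rw [E_sec]
  exact Finset.univ_sum_single (fun i => MonoidAlgebra.mapRingHom H (π i) x)

end

end Pool.Agent.L7h29.NC
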