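import Pool.Agent.L7h29.NC.Grb
import Pool.Agent.Y778.NK.K0Api

set_option autoImplicit false

/-! Project NC, part PRD0. -/

namespace Pool.Agent.L7h29.NC

open Matrix Pool.Agent.Y778.NK
open Pool.Agent.L7h59.TW (RFun Blow Cont k0 k1)
open Pool.Agent.L7h59.NC

noncomputable section

/-- the universal property of `K₀`, functions on idempotent matrices -/
theorem K0lift {R : Type} [Ring R] {B : Type*} [AddCommGroup B]
    (F : ∀ (n : ℕ), IdMat R n → B)
    (hsum : ∀ (m n : ℕ) (e : IdMat R m) (f : IdMat R n) (d : IdMat R (m + n)),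
      (d : Matrix (Fin (m + n)) (Fin (m + n)) R) =
        Matrix.reindex finSumFinEquiv finSumFinEquiv
          (Matrix.fromBlocks (e : Matrix (Fin m) (Fin m) R) 0 0 (f : Matrix (Fin n) (Fin n) R)) →
      F (m + n) d = F m e + F n f)
    (hswap : ∀ (m n : ℕ) (e : IdMat R m) (f : IdMat R n) (u : Matrix (Fin m) (Fin n) R)
      (v : Matrix (Fin n) (Fin m) R), u * v = (e : Matrix (Fin m) (Fin m) R) →
      v * u = (f : Matrix (Fin n) (Fin n) R) → F m e = F n f) :
    ∃ T : K0 R →+ B, ∀ (n : ℕ) (e : IdMat R n), T (K0.mk e) = F n e := by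
  let g : FreeAbelianGroup (Σ n : ℕ, IdMat R n) →+ B :=
    FreeAbelianGroup.lift fun x => F x.1 x.2
  have hg : AddSubgroup.closure (K0Rel R) ≤ g.ker := by
    rw [AddSubgroup.closure_le]
    rintro x (⟨m, n, e, f, d, hd, rfl⟩ | ⟨m, n, e, f, u, v, h1, h2, rfl⟩)
    · show g _ = 0
      rw [map_sub, map_add]
      simp only [g, FreeAbelianGroup.lift_apply_of]
      rw [hsum m n e f d hd, sub_self]
    · show g _ = 0
      rw [map_sub]
      simp only [g, FreeAbelianGroup.lift_apply_of]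
      rw [hswap m n e f u v h1 h2, sub_self]
  refine ⟨QuotientAddGroup.lift _ g hg, ?_⟩
  intro n e
  show g _ = _
  simp only [g, FreeAbelianGroup.lift_apply_of]

section mapN

variable {A B : Type} [Ring A] [Ring B] (f : A →ₙ+* B)

theorem map_mulN {l m n : Type} [Fintype m] (u : Matrix l m A) (v : Matrix m n A) :
    (u * v).map f = u.map f * v.map f := by
  ext i j
  simp [Matrix.mul_apply]

/-- The image of an idempotent matrix. -/
def mapIdN {n : ℕ} (e : IdMat A n) : IdMat B n :=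
  ⟨(e : Matrix (Fin n) (Fin n) A).map f, by rw [← map_mulN, e.2]⟩

theorem K0N_exists : ∃ T : K0 A →+ K0 B, ∀ (n : ℕ) (e : IdMat A n),
    T (K0.mk e) = K0.mk (mapIdN f e) := by
  apply K0lift
  · intro m n e e' d hd
    apply K0.mk_sum'
    show ((d : Matrix (Fin (m + n)) (Fin (m + n)) A)).map f = _
    rw [hd]
    ext i j
    show f ((Matrix.fromBlocks (e : Matrix (Fin m) (Fin m) A) 0 0
      (e' : Matrix (Fin n) (Fin n) A)) (finSumFinEquiv.symm i) (finSumFinEquiv.symm j)) =
      (Matrix.fromBlocks ((e : Matrix (Fin m) (Fin m) A).map f) 0 0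
      ((e' : Matrix (Fin n) (Fin n) A).map f)) (finSumFinEquiv.symm i) (finSumFinEquiv.symm j)
    rcases finSumFinEquiv.symm i with a | a <;> rcases finSumFinEquiv.symm j with b | b
    · rfl
    · exact map_zero f
    · exact map_zero f
    · rfl
  · intro m n e e' u v h1 h2
    apply K0.mk_swap' _ _ (u.map f) (v.map f)
    · rw [← map_mulN, h1]
      rfl
    · rw [← map_mulN, h2]
      rfl

/-- The homomorphism of `K₀` induced by a non-unital homomorphism. -/
def K0N : K0 A →+ K0 B := (K0N_exists f).choose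

theorem K0N_mk {n : ℕ} (e : IdMat A n) : K0N f (K0.mk e) = K0.mk (mapIdN f e) :=
  (K0N_exists f).choose_spec n e

end mapN

theorem sum_orth {R : Type} [Ring R] {ι κ : Type} [DecidableEq ι] [Fintype κ] [DecidableEq κ]
    (f : ι → Matrix κ κ R) (hf : ∀ i, f i * f i = f i) (ho : ∀ i j, i ≠ j → f i * f j = 0)
    (s : Finset ι) : ∃ h : (∑ i ∈ s, f i) * (∑ i ∈ s, f i) = ∑ i ∈ s, f i,
      ∑ i ∈ s, cl0 (f i) (hf i) = cl0 (∑ i ∈ s, f i) h := by
  induction s using Finset.induction_on with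
  | empty => exact ⟨by simp, by simpa using (cl0_zero (R := R) (ι := κ)).symm⟩
  | insert a s ha ih =>
    obtain ⟨h, ih⟩ := ih
    have h1 : f a * ∑ i ∈ s, f i = 0 := by
      rw [Finset.mul_sum]
      exact Finset.sum_eq_zero fun i hi => ho a i (fun e => ha (e ▸ hi))
    have h2 : (∑ i ∈ s, f i) * f a = 0 := by
      rw [Finset.sum_mul]
      exact Finset.sum_eq_zero fun i hi => ho i a (fun e => ha (e ▸ hi))
    refine ⟨by rw [Finset.sum_insert ha]; exact orth_idem (hf a) h h1 h2, ?_⟩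
    rw [Finset.sum_insert ha, ih, ← cl0_orth (hf a) h h1 h2]
    exact cl0_eq _ _ (Finset.sum_insert ha).symm

theorem s_PRD0 : S_PRD0 := by
  intro R ι _ _ _ R' _ π hπ
  have hnat : ∀ (i : ι) (H L : Type) [Group H] [Group L] (φ : H →* L)
      (x : K0 (MonoidAlgebra (R' i) H)),
      K0N (sec π hπ i L) (K0.map (MonoidAlgebra.mapDomainRingHom (R' i) φ) x) =
        K0.map (MonoidAlgebra.mapDomainRingHom R φ) (K0N (sec π hπ i H) x) := by
    intro i H L _ _ φ x
    obtain ⟨m, n, e, e', rfl⟩ := K0_exists x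
    have key : ∀ (n : ℕ) (e : IdMat (MonoidAlgebra (R' i) H) n),
        K0N (sec π hπ i L) (K0.map (MonoidAlgebra.mapDomainRingHom (R' i) φ) (K0.mk e)) =
        K0.map (MonoidAlgebra.mapDomainRingHom R φ) (K0N (sec π hπ i H) (K0.mk e)) := by
      intro n e
      rw [K0.map_mk, K0N_mk, K0N_mk, K0.map_mk]
      congr 1
      apply Subtype.ext
      ext1 a b
      exact (sec_nat π hπ i H L φ _).symm
    rw [map_sub, map_sub, map_sub, map_sub, key, key]
  refine ⟨fun i => ⟨fun H _ => K0N (sec π hπ i H), fun H L _ _ φ x => hnat i H L φ x⟩, ?_⟩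
  intro H _ x
  show ∑ i, K0N (sec π hπ i H) (K0.map (MonoidAlgebra.mapRingHom H (π i)) x) = x
  have key : ∀ (n : ℕ) (e : IdMat (MonoidAlgebra R H) n),
      ∑ i, K0N (sec π hπ i H) (K0.map (MonoidAlgebra.mapRingHom H (π i)) (K0.mk e)) =
        K0.mk e := by
    intro n e
    simp_rw [K0.map_mk, K0N_mk]
    let F : ι → Matrix (Fin n) (Fin n) (MonoidAlgebra R H) := fun i =>
      ((e : Matrix (Fin n) (Fin n) (MonoidAlgebra R H)).map
        (MonoidAlgebra.mapRingHom H (π i))).map (sec π hπ i H)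
    have hF : ∀ i, F i * F i = F i := fun i =>
      (mapIdN (sec π hπ i H) (mapId (MonoidAlgebra.mapRingHom H (π i)) e)).2
    have hO : ∀ i j, i ≠ j → F i * F j = 0 := by
      intro i j hij
      ext1 a b
      rw [Matrix.mul_apply]
      exact Finset.sum_eq_zero fun c _ => sec_orth π hπ i j hij H _ _
    obtain ⟨h, hs⟩ := sum_orth F hF hO Finset.univ
    have e1 : ∑ i, F i = (e : Matrix (Fin n) (Fin n) (MonoidAlgebra R H)) := by
      ext1 a b
      rw [Matrix.sum_apply]
      exact sec_sum π hπ H _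
    have e2 : ∀ i, K0.mk (mapIdN (sec π hπ i H) (mapId (MonoidAlgebra.mapRingHom H (π i)) e)) =
        cl0 (F i) (hF i) := fun i => (cl0_fin _).symm
    simp_rw [e2]
    rw [hs, cl0_eq h e.2 e1, cl0_fin]
  obtain ⟨m, n, e, e', rfl⟩ := K0_exists x
  simp_rw [map_sub]
  rw [Finset.sum_sub_distrib, key, key]

end

end Pool.Agent.L7h29.NC
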