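import Pool.Agent.L7h59.NC.Def

set_option autoImplicit false

/-! Project NC, part SUR. -/

namespace Pool.Agent.L7h29.NC

open Pool.Agent.L7h59.TW (RFun Blow Cont k0 k1)
open Pool.Agent.Y69.FJ (FinSub)
open Pool.Agent.L7h59.NC

section

variable (K : RFun) {R G : Type} [Ring R] [Group G]

theorem cl_add (H : FinSub G) (x y : K.F (MonoidAlgebra R H.1)) :
    cl K H (x + y) = cl K H x + cl K H y := by
  have h : sym K H (x + y) - (sym K H x + sym K H y) ∈ AddSubgroup.closure (Rel K R G) :=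
    AddSubgroup.subset_closure (Or.inl ⟨H, x, y, rfl⟩)
  exact (QuotientAddGroup.eq_iff_sub_mem (N := AddSubgroup.closure (Rel K R G))).2 h

/-- `cl` as a homomorphism. -/
noncomputable def clHom (H : FinSub G) : K.F (MonoidAlgebra R H.1) →+ Colim K R G :=
  AddMonoidHom.mk' (cl K H) (cl_add K H)

theorem clHom_apply (H : FinSub G) (x : K.F (MonoidAlgebra R H.1)) :
    clHom K H x = cl K H x := rfl

theorem cl_conj (H L : FinSub G) (g : G) (φ : H.1 →* L.1) (x : K.F (MonoidAlgebra R H.1))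
    (h : ∀ h : H.1, (φ h : G) = g * h * g⁻¹) :
    cl K L (K.map (MonoidAlgebra.mapDomainRingHom R φ) x) = cl K H x := by
  have h : sym K L (K.map (MonoidAlgebra.mapDomainRingHom R φ) x) - sym K H x ∈
      AddSubgroup.closure (Rel K R G) :=
    AddSubgroup.subset_closure (Or.inr ⟨H, L, g, φ, x, h, rfl⟩)
  exact (QuotientAddGroup.eq_iff_sub_mem (N := AddSubgroup.closure (Rel K R G))).2 h

end

theorem s_SUR : S_SUR := by
  classical
  intro K R R' _ _ t hsurj htors G _ hR
  intro z n hn hz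
  -- the torsion subgroup
  let T : AddSubgroup (Colim K R G) := AddCommGroup.torsion (Colim K R G)
  let q : Colim K R G →+ Colim K R G ⧸ T := QuotientAddGroup.mk' T
  have hqT : ∀ a : Colim K R G, (∃ m : ℕ, 0 < m ∧ m • a = 0) → q a = 0 := by
    intro a ⟨m, hm, hma⟩
    refine (QuotientAddGroup.eq_zero_iff a).2 ?_
    exact isOfFinAddOrder_iff_nsmul_eq_zero.2 ⟨m, hm, hma⟩
  -- the section
  have hτ : ∃ τ : ∀ H : FinSub G, K.F (MonoidAlgebra R' H.1) → Colim K R G ⧸ T,
      ∀ (H : FinSub G) (x : K.F (MonoidAlgebra R H.1)), τ H (t.f H.1 x) = q (cl K H x) := by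
    refine ⟨fun H y => q (cl K H (Classical.choose (hsurj H.1 y))), ?_⟩
    intro H x
    have h1 := Classical.choose_spec (hsurj H.1 (t.f H.1 x))
    set x' := Classical.choose (hsurj H.1 (t.f H.1 x)) with hx'
    have h2 : t.f H.1 (x' - x) = 0 := by rw [map_sub, h1, sub_self]
    obtain ⟨m, hm, hmx⟩ := htors H.1 _ h2
    have h3 : q (clHom K H (x' - x)) = 0 := by
      apply hqT
      exact ⟨m, hm, by rw [← map_nsmul, hmx, map_zero]⟩
    rw [map_sub, map_sub, sub_eq_zero] at h3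
    exact h3
  obtain ⟨τ, hτ⟩ := hτ
  let σ : FreeAbelianGroup (Sym K R' G) →+ Colim K R G ⧸ T :=
    FreeAbelianGroup.lift fun s => τ s.1 s.2
  have hσ : ∀ (H : FinSub G) (y : K.F (MonoidAlgebra R' H.1)), σ (sym K H y) = τ H y :=
    fun H y => FreeAbelianGroup.lift_apply_of _ _
  have hrel : AddSubgroup.closure (Rel K R' G) ≤ σ.ker := by
    rw [AddSubgroup.closure_le]
    rintro w (⟨H, y1, y2, rfl⟩ | ⟨H, L, g, φ, y, hφ, rfl⟩)
    · obtain ⟨x1, rfl⟩ := hsurj H.1 y1
      obtain ⟨x2, rfl⟩ := hsurj H.1 y2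
      show σ _ = 0
      rw [map_sub, map_add, hσ, hσ, hσ, ← map_add, hτ, hτ, hτ, cl_add, map_add, sub_self]
    · obtain ⟨x, rfl⟩ := hsurj H.1 y
      show σ _ = 0
      rw [map_sub, hσ, hσ, ← t.nat, hτ, hτ, cl_conj K H L g φ x hφ, sub_self]
  -- the induced map on symbols
  let ts : FreeAbelianGroup (Sym K R G) →+ FreeAbelianGroup (Sym K R' G) :=
    FreeAbelianGroup.lift fun s => sym K s.1 (t.f s.1.1 s.2)
  have hts : ∀ s : Sym K R G, ts (FreeAbelianGroup.of s) = sym K s.1 (t.f s.1.1 s.2) :=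
    fun s => FreeAbelianGroup.lift_apply_of _ _
  have hasm : (asmPre K R' G).comp ts = (t.f G).comp (asmPre K R G) := by
    refine FreeAbelianGroup.lift_ext _ _ ?_
    rintro ⟨H, x⟩
    show asmPre K R' G (ts (FreeAbelianGroup.of ⟨H, x⟩)) = t.f G (asmPre K R G _)
    rw [hts]
    have e1 : asmPre K R' G (sym K H (t.f H.1 x)) =
        K.map (MonoidAlgebra.mapDomainRingHom R' H.1.subtype) (t.f H.1 x) :=
      FreeAbelianGroup.lift_apply_of _ _
    have e2 : asmPre K R G (FreeAbelianGroup.of ⟨H, x⟩) =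
        K.map (MonoidAlgebra.mapDomainRingHom R H.1.subtype) x :=
      FreeAbelianGroup.lift_apply_of _ _
    rw [e1, e2, t.nat]
  have hσt : ∀ w : FreeAbelianGroup (Sym K R G),
      σ (ts w) = q (QuotientAddGroup.mk w : Colim K R G) := by
    intro w
    have e : σ.comp ts = q.comp (QuotientAddGroup.mk' (AddSubgroup.closure (Rel K R G))) := by
      refine FreeAbelianGroup.lift_ext _ _ ?_
      rintro ⟨H, x⟩
      show σ (ts (FreeAbelianGroup.of ⟨H, x⟩)) = q (cl K H x)
      rw [hts, hσ, hτ]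
    exact DFunLike.congr_fun e w
  have hz' : n • asmPre K R' G (ts z) = 0 := by
    have e := DFunLike.congr_fun hasm z
    have e' : asmPre K R' G (ts z) = t.f G (asmPre K R G z) := e
    rw [e', ← map_nsmul, hz, map_zero]
  obtain ⟨l, hl, hlz⟩ := hR (ts z) n hn hz'
  have h1 : l • ts z ∈ AddSubgroup.closure (Rel K R' G) :=
    (QuotientAddGroup.eq_zero_iff (N := AddSubgroup.closure (Rel K R' G)) (l • ts z)).1 hlz
  have h2 : σ (l • ts z) = 0 := hrel h1
  rw [map_nsmul, hσt, ← map_nsmul] at h2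
  have h3 : l • (QuotientAddGroup.mk z : Colim K R G) ∈ T :=
    (QuotientAddGroup.eq_zero_iff (N := T) _).1 h2
  obtain ⟨m, hm, hmz⟩ := isOfFinAddOrder_iff_nsmul_eq_zero.1 h3
  exact ⟨m * l, Nat.mul_pos hm hl, by rw [mul_smul]; exact hmz⟩

end Pool.Agent.L7h29.NC
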